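import Mathlib
import Pool.Agent.U591.AM.Stm
import Pool.Agent.U591.AM.PV
import Pool.Agent.U591.AM.PM5
import Pool.Agent.U591.AM.PT
import Pool.Agent.U830.AM.P1
import Pool.Agent.U933.AM.Z
import Pool.Agent.U261.AM.D
import Pool.Agent.U84.AM.F

/-!
# Av(3142) and Av(2413) are 2-amalgamable

Q1 of the problem asks for a 2-amalgamable permutation class which is not contained in the class of
the separable permutations and is not the class of all permutations.  The class Av(3142) of the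
permutations without the pattern 3142 is one, and so is its mirror image Av(2413).
-/

set_option autoImplicit false

namespace Pool.Agent.Results.MP_d55b77_co.OneSidedSimplePattern

/-- Permutations of all sizes `n` (the empty one included): `π.2 i` is the value at position `i`. -/
abbrev Permutation := Σ n : ℕ, Equiv.Perm (Fin n)

/-- `f` is an embedding of `α` into `π`: it preserves the orders by position and by value. -/
def IsEmbedding (α π : Permutation) (f : Fin α.1 → Fin π.1) : Prop :=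
  (∀ i j, i < j ↔ f i < f j) ∧ (∀ i j, α.2 i < α.2 j ↔ π.2 (f i) < π.2 (f j))

/-- `α` is a pattern of `π`. -/
def IsPattern (α π : Permutation) : Prop := ∃ f, IsEmbedding α π f

/-- A permutation class: closed under taking patterns. -/
def IsClass (C : Set Permutation) : Prop := ∀ π ∈ C, ∀ α, IsPattern α π → α ∈ C

/-- `Av B`: the permutations without a pattern in `B`. -/
def Av (B : Set Permutation) : Set Permutation := {π | ∀ β ∈ B, ¬ IsPattern β π}

/-- `C` is `α`-amalgamable. -/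
def Amalgamable (C : Set Permutation) (α : Permutation) : Prop :=
  ∀ π ∈ C, ∀ σ ∈ C, ∀ f g, IsEmbedding α π f → IsEmbedding α σ g →
    ∃ τ ∈ C, ∃ f' g', IsEmbedding π τ f' ∧ IsEmbedding σ τ g' ∧ f' ∘ f = g' ∘ g

/-- `C` is `k`-amalgamable: `α`-amalgamable for all members `α` of size at most `k`. -/
def KAmalgamable (k : ℕ) (C : Set Permutation) : Prop := ∀ α ∈ C, α.1 ≤ k → Amalgamable C α

/-- The permutation 3142 (values, counted from 0: 2, 0, 3, 1). -/
def p3142 : Permutation := ⟨4, ⟨![2, 0, 3, 1], ![1, 3, 0, 2], by decide, by decide⟩⟩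

/-- The permutation 2413 (values, counted from 0: 1, 3, 0, 2). -/
def p2413 : Permutation := ⟨4, ⟨![1, 3, 0, 2], ![2, 0, 3, 1], by decide, by decide⟩⟩

/-- The separable permutations, Av(2413, 3142). -/
def Sep : Set Permutation := Av {p2413, p3142}

section bridge

theorem emb_iff (α π : Permutation) (f : Fin α.1 → Fin π.1) :
    IsEmbedding α π f ↔ Pool.Agent.U591.AM.IsEmbedding α π f :=
  ⟨fun h => ⟨h.1, h.2⟩, fun h => ⟨h.pos, h.val⟩⟩

theorem pat_iff (α π : Permutation) : IsPattern α π ↔ Pool.Agent.U591.AM.Pattern α π :=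
  ⟨fun ⟨f, h⟩ => ⟨f, (emb_iff _ _ _).mp h⟩, fun ⟨f, h⟩ => ⟨f, (emb_iff _ _ _).mpr h⟩⟩

theorem av_eq (B : Set Permutation) : Av B = Pool.Agent.U591.AM.Avoiders B := by
  ext π
  constructor
  · intro h β hβ hp; exact h β hβ ((pat_iff _ _).mpr hp)
  · intro h β hβ hp; exact h β hβ ((pat_iff _ _).mp hp)

theorem e3142 : p3142 = Pool.Agent.U591.AM.p3142 := rfl
theorem e2413 : p2413 = Pool.Agent.U591.AM.p2413 := rfl

theorem goal : Pool.Agent.U591.AM.Goal :=
  Pool.Agent.U84.AM.F.t_F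
    (Pool.Agent.U591.AM.t_T2 Pool.Agent.U261.AM.D.t_D
      (Pool.Agent.U591.AM.t_M Pool.Agent.U830.AM.P1.t_P1 Pool.Agent.U933.AM.Z.t_Z)
      Pool.Agent.U591.AM.t_V)
    (Pool.Agent.U591.AM.t_T1 Pool.Agent.U830.AM.P1.t_P1)

theorem amal3142 : KAmalgamable 2 (Av {p3142}) := by
  intro α hα hk π hπ σ hσ f g hf hg
  rw [av_eq] at hα hπ hσ
  obtain ⟨τ, hτ, f', g', h1, h2, h3⟩ :=
    goal.2.1 α hα hk π hπ σ hσ f g ((emb_iff _ _ _).mp hf) ((emb_iff _ _ _).mp hg)
  exact ⟨τ, by rw [av_eq]; exact hτ, f', g', (emb_iff _ _ _).mpr h1, (emb_iff _ _ _).mpr h2, h3⟩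

theorem isPattern_trans {α β γ : Permutation} (h1 : IsPattern α β) (h2 : IsPattern β γ) :
    IsPattern α γ := by
  obtain ⟨f, hf⟩ := h1
  obtain ⟨g, hg⟩ := h2
  exact ⟨g ∘ f, fun i j => (hf.1 i j).trans (hg.1 _ _), fun i j => (hf.2 i j).trans (hg.2 _ _)⟩

theorem isClass_av (B : Set Permutation) : IsClass (Av B) :=
  fun _ hπ _ hα β hβ hp => hπ β hβ (isPattern_trans hp hα)

/-- the complement (all values reversed) -/
def cpl (π : Permutation) : Permutation := ⟨π.1, π.2.trans Fin.revPerm⟩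

theorem cpl_val (π : Permutation) (i j : Fin π.1) :
    (cpl π).2 i < (cpl π).2 j ↔ π.2 j < π.2 i := by
  show Fin.rev (π.2 i) < Fin.rev (π.2 j) ↔ π.2 j < π.2 i
  exact Fin.rev_lt_rev

theorem cpl_emb {α π : Permutation} {f : Fin α.1 → Fin π.1} :
    IsEmbedding (cpl α) (cpl π) f ↔ IsEmbedding α π f := by
  constructor
  · intro h
    refine ⟨h.1, ?_⟩
    intro i j
    exact (cpl_val α j i).symm.trans ((h.2 j i).trans (cpl_val π (f j) (f i)))
  · intro h
    refine ⟨h.1, ?_⟩
    intro i j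
    exact (cpl_val α i j).trans ((h.2 j i).trans (cpl_val π (f i) (f j)).symm)

theorem cpl_emb' {α π : Permutation} {f : Fin α.1 → Fin π.1} (h : IsEmbedding (cpl α) π f) :
    IsEmbedding α (cpl π) f := by
  refine ⟨h.1, ?_⟩
  intro i j
  exact (cpl_val α j i).symm.trans ((h.2 j i).trans (cpl_val π (f i) (f j)).symm)

theorem cpl_cpl (π : Permutation) : cpl (cpl π) = π := by
  obtain ⟨n, π⟩ := π
  show (⟨n, (π.trans Fin.revPerm).trans Fin.revPerm⟩ : Permutation) = ⟨n, π⟩
  have : (π.trans Fin.revPerm).trans Fin.revPerm = π := by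
    ext i
    simp [Equiv.trans_apply]
  rw [this]

theorem cpl_pat {α π : Permutation} : IsPattern (cpl α) (cpl π) ↔ IsPattern α π :=
  ⟨fun ⟨f, h⟩ => ⟨f, cpl_emb.mp h⟩, fun ⟨f, h⟩ => ⟨f, cpl_emb.mpr h⟩⟩

theorem cpl_2413 : cpl p2413 = p3142 := by
  have : ((⟨![1, 3, 0, 2], ![2, 0, 3, 1], by decide, by decide⟩ : Equiv.Perm (Fin 4)).trans
      Fin.revPerm) = ⟨![2, 0, 3, 1], ![1, 3, 0, 2], by decide, by decide⟩ := by
    ext i
    fin_cases i <;> rfl
  exact congrArg (fun e => (⟨4, e⟩ : Permutation)) this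

theorem cpl_3142 : cpl p3142 = p2413 := by
  have : ((⟨![2, 0, 3, 1], ![1, 3, 0, 2], by decide, by decide⟩ : Equiv.Perm (Fin 4)).trans
      Fin.revPerm) = ⟨![1, 3, 0, 2], ![2, 0, 3, 1], by decide, by decide⟩ := by
    ext i
    fin_cases i <;> rfl
  exact congrArg (fun e => (⟨4, e⟩ : Permutation)) this

theorem mem_2413 (π : Permutation) : π ∈ Av {p2413} ↔ cpl π ∈ Av {p3142} := by
  constructor
  · intro h β hβ hp
    rw [Set.mem_singleton_iff] at hβ
    rw [hβ, ← cpl_2413, cpl_pat] at hp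
    exact h _ rfl hp
  · intro h β hβ hp
    rw [Set.mem_singleton_iff] at hβ
    rw [hβ, ← cpl_pat, cpl_2413] at hp
    exact h _ rfl hp

theorem amal2413 : KAmalgamable 2 (Av {p2413}) := by
  intro α hα hk π hπ σ hσ f g hf hg
  obtain ⟨τ, hτ, f', g', h1, h2, h3⟩ := amal3142 (cpl α) ((mem_2413 α).mp hα) hk (cpl π)
    ((mem_2413 π).mp hπ) (cpl σ) ((mem_2413 σ).mp hσ) f g (cpl_emb.mpr hf) (cpl_emb.mpr hg)
  refine ⟨cpl τ, (mem_2413 _).mpr (by rw [cpl_cpl]; exact hτ), f', g', ?_, ?_, h3⟩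
  · exact cpl_emb' h1
  · exact cpl_emb' h2

theorem pat_refl (α : Permutation) : IsPattern α α := ⟨id, fun _ _ => Iff.rfl, fun _ _ => Iff.rfl⟩

theorem not_pat_4 : ¬ IsPattern p3142 p2413 := fun h =>
  Pool.Agent.U84.AM.F.mem_2413 _ rfl ((pat_iff _ _).mp h)

theorem not_pat_4' : ¬ IsPattern p2413 p3142 := by
  intro h
  have h1 := cpl_pat.mpr h
  rw [cpl_2413, cpl_3142] at h1
  exact not_pat_4 h1

end bridge

/-- **Theorem.**  Av(3142) and its mirror image Av(2413) are 2-amalgamable permutation classes;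
neither is contained in the class of the separable permutations, neither is the class of all
permutations. -/
theorem result :
    (IsClass (Av {p3142}) ∧ KAmalgamable 2 (Av {p3142}) ∧ ¬ Av {p3142} ⊆ Sep ∧
      Av {p3142} ≠ Set.univ) ∧
    (IsClass (Av {p2413}) ∧ KAmalgamable 2 (Av {p2413}) ∧ ¬ Av {p2413} ⊆ Sep ∧
      Av {p2413} ≠ Set.univ) := by
  refine ⟨⟨isClass_av _, amal3142, ?_, ?_⟩, ⟨isClass_av _, amal2413, ?_, ?_⟩⟩
  · intro h
    have h1 : p2413 ∈ Av {p3142} := by
      intro β hβ hp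
      rw [Set.mem_singleton_iff] at hβ
      rw [hβ] at hp
      exact not_pat_4 hp
    exact h h1 p2413 (Or.inl rfl) (pat_refl _)
  · intro h
    have h1 : p3142 ∈ Av {p3142} := by rw [h]; trivial
    exact h1 p3142 rfl (pat_refl _)
  · intro h
    have h1 : p3142 ∈ Av {p2413} := by
      intro β hβ hp
      rw [Set.mem_singleton_iff] at hβ
      rw [hβ] at hp
      exact not_pat_4' hp
    exact h h1 p3142 (Or.inr rfl) (pat_refl _)
  · intro h
    have h1 : p2413 ∈ Av {p2413} := by rw [h]; trivial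
    exact h1 p2413 rfl (pat_refl _)

end Pool.Agent.Results.MP_d55b77_co.OneSidedSimplePattern
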